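import Pool.Agent.MP_8be872_ag.H63.SpecE
import Pool.Agent.MP_8be872_ag.H63.ApiC
import Pool.Agent.MP_8be872_ag.H44.Glob1
import Pool.Agent.MP_8be872_ag.H52.SlW

/-! Normal forms of words, substitution and matrices on the slice. -/

namespace Pool.Agent.MP_8be872_ag.H34

open Finset H38 H56 H63 MvPolynomial
open scoped Matrix

section Gen

variable {E O : Type} [Fintype E] [Fintype O] [DecidableEq E] [DecidableEq O]

theorem eq_pol {A : E ⊕ O → Prop} (hA : ∀ g, A g → g.isLeft) {x : Sp E O}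
    (hx : x ∈ mono (sup A)) : x = pol (x ∅) := by
  funext S
  by_cases hS : S = ∅
  · rw [hS, pol, Pi.single_eq_same]
  · rw [pol, Pi.single_eq_of_ne hS]
    ext m
    rw [coeff_zero]
    by_contra h
    obtain ⟨o, ho⟩ := nonempty_iff_ne_empty.2 hS
    have := hA _ (mem_mono.1 hx S m h (.inr o) (by simp [ex, ho]))
    simp at this

/-- Words without odd generators are polynomials. -/
theorem nf0 {K A : E ⊕ O → Prop} (hA : ∀ g, A g → g.isLeft) {m : Module.End ℂ (Sp E O)}
    (hm : m ∈ words fun μ => has K μ ∨ sup A μ) :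
    ∃ r, (pol r : Sp E O) ∈ mono (sup A) ∧ m - mul r ∈ words (has K) := by
  obtain ⟨m₀, h0, h1⟩ := words_split (has K) hm
  have h2 : m - m₀ ∈ words (sup A) := words_le (fun _ h => h.1.resolve_left h.2) h1
  have h3 := eq_pol hA (words_one_mem h2)
  refine ⟨(m - m₀) one ∅, h3 ▸ words_one_mem h2, ?_⟩
  have h4 : m - m₀ - mul ((m - m₀) one ∅) = 0 :=
    words_ext (sub_mem (words_le (fun _ _ => trivial) h2) (mul_mem_true _))
      (by rw [LinearMap.sub_apply, mul_one_eq, ← h3, sub_self])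
  have h5 : m - mul ((m - m₀) one ∅) = m₀ := by
    rw [← sub_eq_zero, ← h4]
    abel
  rw [h5]
  exact words_le (fun _ h => h.2) h0

/-- Words with one odd generator. -/
theorem nf1 {K A B : E ⊕ O → Prop} (hA : ∀ g, A g → g.isLeft) {m : Module.End ℂ (Sp E O)}
    (hm : m ∈ words fun μ => has K μ ∨ (sup (fun g => A g ∨ B g) μ ∧ cnt B μ = 1)) :
    ∃ a : E ⊕ O → MvPolynomial E ℂ, (∀ g, (pol (a g) : Sp E O) ∈ mono (sup A) ∧ (a g ≠ 0 → B g)) ∧
      m - ∑ g, mul (a g) * gn g ∈ words (has K) := by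
  classical
  obtain ⟨m₀, h0, h1⟩ := words_split (has K) hm
  have h2 : m - m₀ ∈ words fun μ => sup (fun g => A g ∨ B g) μ ∧ cnt B μ = 1 :=
    words_le (fun _ h => h.1.resolve_left h.2) h1
  have hx := words_one_mem h2
  set x := (m - m₀) one with hxd
  have h3 : ∀ g, B g → dr g x ∈ mono (sup A) := fun g hg => dr_mem g hx fun μ h => by
    have h4 := h.2
    rw [cnt_add, cnt_single, if_pos hg] at h4
    intro g' hg'
    refine ((H63.sup_add.1 h.1).1 g' hg').resolve_right fun hb => ?_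
    exact cnt_ne_zero.2 ⟨g', hb, hg'⟩ (by omega)
  refine ⟨fun g => if B g then dr g x ∅ else 0, fun g => ⟨?_, fun h => ?_⟩, ?_⟩
  · beta_reduce
    split_ifs with hg
    · exact eq_pol hA (h3 g hg) ▸ h3 g hg
    · exact pol_mem.2 fun m h => absurd (coeff_zero m) h
  · by_contra hg
    exact h (if_neg hg)
  have h5 := euler_apply (fun g => if B g then (1 : ℂ) else 0) (a := 1) (x := x)
    (mono_le (fun μ h => by
      have h6 : ((cnt B μ : ℕ) : ℂ) = 1 := by rw [h.2, Nat.cast_one]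
      refine Eq.trans ?_ h6
      rw [ws, cnt, Nat.cast_sum]
      refine sum_congr rfl fun g _ => ?_
      split_ifs <;> simp) hx)
  have h6 : m - m₀ - ∑ g, mul (if B g then dr g x ∅ else 0) * gn g = 0 := by
    refine words_ext (P := fun _ => True) (sub_mem (words_le (fun _ _ => trivial) h2)
      (Submodule.sum_mem _ fun g _ => mul_mem_words (mul_mem_true _)
        (gn_mem_words (P := fun _ => True) trivial) fun _ _ _ _ => trivial)) ?_
    rw [one_smul] at h5
    rw [LinearMap.sub_apply, ← hxd, sub_eq_zero]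
    refine h5.symm.trans ?_
    rw [vf, LinearMap.sum_apply, LinearMap.sum_apply]
    refine sum_congr rfl fun g _ => ?_
    rw [mul_comm_words _ (gn_mem_words (P := fun _ => True) trivial), Module.End.mul_apply,
      Module.End.mul_apply, mul_one_eq]
    split_ifs with hg
    · rw [one_smul, ← eq_pol hA (h3 g hg)]
    · rw [zero_smul, LinearMap.zero_apply, pol, Pi.single_zero, map_zero]
  have h7 : m - ∑ g, mul (if B g then dr g x ∅ else 0) * gn g = m₀ := by
    rw [← sub_eq_zero, ← h6]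
    abel
  rw [h7]
  exact words_le (fun _ h => h.2) h0

variable {R : Type} [CommRing R] [Algebra ℂ R] {ρ : E ⊕ O → R}

theorem lift_kill (hρ : ∀ g h, ρ g * ρ h = sg (g.isRight && h.isRight) • (ρ h * ρ g))
    {A : E ⊕ O → Prop} (hA : ∀ g, A g → ρ g = 0) {m : Module.End ℂ (Sp E O)}
    (hm : m ∈ words (has A)) : lift ρ (m one) = 0 := by
  refine words_le_of (C := LinearMap.ker (lift ρ ∘ₗ LinearMap.applyₗ one)) (fun l hl => ?_) hm
  obtain ⟨g, hg, h⟩ := hl
  change lift ρ ((l.map gn).prod one) = 0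
  rw [apiC_word hρ, List.prod_eq_zero, zero_mul]
  rw [← hA g hg]
  refine List.mem_map_of_mem ?_
  obtain ⟨g', h1, h2⟩ := List.countP_pos_iff.1 (Nat.pos_of_ne_zero h)
  rwa [(beq_iff' _ _).1 h2]

theorem lift_mul (hρ : ∀ g h, ρ g * ρ h = sg (g.isRight && h.isRight) • (ρ h * ρ g))
    (f : MvPolynomial E ℂ) (x : Sp E O) :
    lift ρ (mul f x) = aeval (fun e => ρ (.inl e)) f * lift ρ x := by
  induction f using MvPolynomial.induction_on generalizing x with
  | C a => rw [mul_C, aeval_C, Module.algebraMap_end_apply, map_smul, Algebra.smul_def]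
  | add p q hp hq => rw [mul_add', LinearMap.add_apply, map_add, hp, hq, map_add, add_mul]
  | mul_X p e hp =>
    rw [mul_mul, Module.End.mul_apply, hp, map_mul, aeval_X, mul_assoc]
    congr 1
    exact lift_gn hρ (.inl e) x

omit [DecidableEq E] [DecidableEq O] in
theorem ws_nonpos {c : E ⊕ O → ℤ} {μ : E ⊕ O → ℕ} (h : ∀ g, μ g ≠ 0 → c g ≤ 0) : ws c μ ≤ 0 :=
  sum_nonpos fun g _ => by
    by_cases hg : μ g = 0
    · rw [hg, zero_smul]
    · exact nsmul_nonpos (h g hg) _

omit [Fintype E] [Fintype O] in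
theorem peel {μ : E ⊕ O → ℕ} {g : E ⊕ O} (h : μ g ≠ 0) :
    ∃ ν : E ⊕ O → ℕ, μ = ν + Pi.single g 1 := by
  refine ⟨μ - Pi.single g 1, funext fun g' => ?_⟩
  by_cases hg : g' = g
  · subst hg
    simp only [Pi.add_apply, Pi.sub_apply, Pi.single_eq_same]
    omega
  · simp [hg]

theorem ws_zero_of {c : E ⊕ O → ℤ} {μ : E ⊕ O → ℕ} (h : ∀ g, μ g ≠ 0 → c g ≤ 0)
    (h0 : ws c μ = 0) (g : E ⊕ O) (hg : μ g ≠ 0) : c g = 0 := by
  obtain ⟨ν, rfl⟩ := peel hg
  have h1 := ws_nonpos (c := c) (μ := ν) fun g' hg' => h g' (by simp [hg'])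
  have h2 := h g hg
  rw [ws_add, ws_single] at h0
  omega

theorem ws_neg_one {c : E ⊕ O → ℤ} {μ : E ⊕ O → ℕ} (h : ∀ g, μ g ≠ 0 → c g ≤ 0)
    (h0 : ws c μ = -1) : ∃ (g : E ⊕ O) (ν : E ⊕ O → ℕ),
      μ = ν + Pi.single g 1 ∧ c g = -1 ∧ ∀ g', ν g' ≠ 0 → c g' = 0 := by
  have h1 : ∃ g, μ g ≠ 0 ∧ c g ≠ 0 := by
    by_contra h1
    have h2 : ws c μ = 0 := sum_eq_zero fun g _ => by
      by_cases hg : μ g = 0
      · rw [hg, zero_smul]
      · rw [not_not.1 fun h3 => h1 ⟨g, hg, h3⟩, smul_zero]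
    omega
  obtain ⟨g, hg, hc⟩ := h1
  obtain ⟨ν, rfl⟩ := peel hg
  have h1 : ∀ g', ν g' ≠ 0 → c g' ≤ 0 := fun g' hg' => h g' (by simp [hg'])
  have h2 := ws_nonpos h1
  have h3 := h g hg
  rw [ws_add, ws_single] at h0
  exact ⟨g, ν, rfl, by omega, ws_zero_of h1 (by omega)⟩

omit [DecidableEq E] [DecidableEq O] in
theorem ws_nat_zero {c : E ⊕ O → ℕ} {μ : E ⊕ O → ℕ} (h : ws c μ = 0) (g : E ⊕ O)
    (hg : μ g ≠ 0) : c g = 0 := by
  have := (sum_eq_zero_iff.1 h) g (mem_univ g)
  rw [smul_eq_mul, mul_eq_zero] at this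
  exact this.resolve_left hg

end Gen

variable {Q : Quiv} {w v D : Fin Q.n → ℕ} {lab : Bas Q D → Bas Q v × ℕ}

section Mat

variable {A A' : Type} [Ring A] [Algebra ℂ A] [Ring A'] [Algebra ℂ A']

open Classical in
theorem YS_ka (y : Kd Q → Nb Q w v D → Nb Q w v D → A) :
    YS lab y ka = (al0 lab).map (algebraMap ℂ A) +
      Matrix.of fun p q => if shS lab ka p q then y ka p q else 0 := by
  simp only [YS, if_true]
  rfl

open Classical in
theorem YS_kc (y : Kd Q → Nb Q w v D → Nb Q w v D → A) :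
    YS lab y kc = ∑ i ∈ range (Fintype.card (Bas Q D) + 1),
      ((al0 lab).map (algebraMap ℂ A))ᵀ ^ i *
        (Matrix.of fun p q => if shS lab kc p q then y kc p q else 0) * YS lab y ka ^ i := by
  have h : (kc : Kd Q) ≠ ka := by simp
  rw [YS_ka]
  simp only [YS, if_true, if_neg h]
  rfl

open Classical in
theorem YS_oth (y : Kd Q → Nb Q w v D → Nb Q w v D → A) {k : Kd Q} (h : k ≠ ka) (h' : k ≠ kc)
    (p q : Nb Q w v D) : YS lab y k p q = if shS lab k p q then y k p q else 0 := by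
  simp only [YS, if_neg h, if_neg h']

theorem YS_map (h : A →ₐ[ℂ] A') (y : Kd Q → Nb Q w v D → Nb Q w v D → A) (k : Kd Q) :
    (YS lab y k).map h = YS lab (fun k p q => h (y k p q)) k := by
  classical
  have h1 : (((al0 lab).map (algebraMap ℂ A) : Matrix (Nb Q w v D) _ A)).map h =
      (al0 lab).map (algebraMap ℂ A') := by
    ext p q
    exact h.commutes _
  have h2 : (YS lab y ka).map h = YS lab (fun k p q => h (y k p q)) ka := by
    rw [YS_ka, YS_ka, Matrix.map_add _ (map_add h), h1]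
    congr 1
    ext p q
    simp only [Matrix.map_apply, Matrix.of_apply]
    split_ifs
    exacts [rfl, map_zero h]
  by_cases hk : k = ka
  · rw [hk, h2]
  by_cases hk' : k = kc
  · rw [hk', YS_kc, YS_kc, ← AlgHom.mapMatrix_apply, map_sum]
    refine sum_congr rfl fun i _ => ?_
    rw [map_mul, map_mul, map_pow, map_pow, AlgHom.mapMatrix_apply, AlgHom.mapMatrix_apply,
      AlgHom.mapMatrix_apply, h2, Matrix.transpose_map, h1]
    congr 2
    ext p q
    simp only [Matrix.map_apply, Matrix.of_apply]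
    split_ifs
    exacts [rfl, map_zero h]
  ext p q
  rw [Matrix.map_apply, YS_oth _ hk hk', YS_oth _ hk hk']
  split_ifs
  exacts [rfl, map_zero h]

theorem YS_ka0 {y : Kd Q → Nb Q w v D → Nb Q w v D → A} (h : ∀ p q, y ka p q = 0) :
    YS lab y ka = (al0 lab).map (algebraMap ℂ A) := by
  rw [YS_ka, add_eq_left]
  ext p q
  simp [h]

theorem YS_kc0 {y : Kd Q → Nb Q w v D → Nb Q w v D → A} (h : ∀ p q, y kc p q = 0) :
    YS lab y kc = 0 := by
  rw [YS_kc]
  refine sum_eq_zero fun i _ => ?_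
  rw [show (Matrix.of fun p q => _) = (0 : Matrix (Nb Q w v D) (Nb Q w v D) A) from by
    ext p q
    simp [h], mul_zero, zero_mul]

end Mat

theorem colP_map {N A A' : Type} [Fintype N] [CommRing A] [CommRing A'] (h : A →+* A')
    (at' : Fin Q.n → N → Prop) (x : Arr Q → Matrix N N A) (y₀ : N → A)
    (l : List (Arr Q × Fin Q.n)) (p : N) :
    h (colP at' x y₀ l p) = colP at' (fun ε => (x ε).map h) (fun p => h (y₀ p)) l p := by
  induction l generalizing p with
  | nil => rfl
  | cons s l ih =>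
    simp only [colP, List.foldr_cons] at ih ⊢
    split_ifs
    · rw [Matrix.mulVec, Matrix.mulVec, dotProduct, dotProduct, map_sum]
      refine sum_congr rfl fun p' _ => ?_
      rw [map_mul, ih]
      rfl
    · exact map_zero h

theorem Fmat_map {A A' : Type} [CommRing A] [CommRing A'] (h : A →+* A')
    (P : Bas Q v → Pth Q w) (Y : Kd Q → Matrix (Nb Q w v D) (Nb Q w v D) A) :
    (Fmat P Y).map h = Fmat P fun k => (Y k).map h := by
  ext p q
  rcases q with τ | b | b
  · rfl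
  · simp only [Fmat, Matrix.map_apply]
    rw [colP_map]
    congr 1
    funext p
    by_cases hp : p = .inr (.inr (P b).1)
    · rw [hp, Pi.single_eq_same, Pi.single_eq_same, map_one]
    · rw [Pi.single_eq_of_ne hp, Pi.single_eq_of_ne hp, map_zero]
  · simp only [Fmat, Matrix.map_apply]
    split_ifs
    exacts [map_one h, map_zero h]

theorem Fmat_congr {A : Type} [CommRing A] (P : Bas Q v → Pth Q w)
    {Y Y' : Kd Q → Matrix (Nb Q w v D) (Nb Q w v D) A} (h : Y ka = Y' ka)
    (h' : ∀ ε, Y (kx ε) = Y' (kx ε)) : Fmat P Y = Fmat P Y' := by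
  ext p q
  rcases q with τ | b | b
  · simp only [Fmat, h]
  · simp only [Fmat, h']
  · rfl

theorem al0_shape {d : Bas Q v → ℕ} (hl : IsLab d lab) {p q : Nb Q w v D}
    (h : al0 lab p q ≠ 0) : shape rad ka p q := by
  rcases q with τ | q
  · have h1 : hp lab p = some ((lab τ).1, (lab τ).2) := by
      by_contra h1
      exact h (if_neg h1)
    obtain ⟨h2, -, h3⟩ := H52.pos_vx hl h1
    exact ⟨⟨h2.trans (hl.vert τ), h3, by simp [blk]⟩, rfl⟩
  · exact absurd rfl h

variable {J : Type} [Fintype J] [DecidableEq J]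

/-- The value of the differential after a substitution. -/
theorem lift_dS (hD : DSqStmt) {R : Type} [CommRing R] [Algebra ℂ R]
    {ρ : Ix Q w v D J ⊕ Ix Q w v D J → R}
    (hρ : ∀ g h, ρ g * ρ h = sg (g.isRight && h.isRight) • (ρ h * ρ g)) {k : Kd Q}
    {p q : Nb Q w v D} (h : shS lab k p q) :
    lift ρ (dS lab (gg k p q) one) = Phi Q (YS lab fun k p q => ρ (gg k p q)) k p q := by
  let y : Kd Q → Nb Q w v D → Nb Q w v D →
      (wordsA : Subalgebra ℂ (OpQ Q w v D J)) := fun k p q =>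
    ⟨gn (gg k p q), gn_mem_words (P := fun _ => True) trivial⟩
  have h1 := congrFun (congrFun (hD.1 Q _ _ _ (wordsA.val : _ →ₐ[ℂ] OpQ Q w v D J).toRingHom
    (YS lab y) k) p) q
  have h2 := congrFun (congrFun (hD.1 Q _ _ _ (liftA hρ).toRingHom (YS lab y) k) p) q
  have e1 : (fun k => (YS lab y k).map (wordsA.val : _ →ₐ[ℂ] OpQ Q w v D J).toRingHom) =
      YS lab fun k p q => gn (gg k p q) := funext fun k => YS_map _ y k
  have e2 : (fun k => (YS lab y k).map (liftA hρ).toRingHom) =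
      YS lab fun k p q => ρ (gg k p q) := funext fun k => (YS_map _ y k).trans (by
    congr 1
    funext k p q
    change lift ρ (gn (gg k p q) one) = _
    rw [lift_gn hρ, lift_one, mul_one])
  rw [e1] at h1
  rw [e2] at h2
  rw [dS, H44.ofM_gg, if_pos h, ← h1, ← h2]
  rfl

end Pool.Agent.MP_8be872_ag.H34
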