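import Pool.Agent.MP_8be872_ag.H34.NegA

/-! The generators of positive level that do not cancel in pairs. -/

namespace Pool.Agent.MP_8be872_ag.H34

open Finset H38 H56 H63 H44 MvPolynomial
open scoped Matrix

variable {Q : Quiv} {w v D : Fin Q.n → ℕ} {J : Type} {d : Bas Q v → ℕ}
  {lab : Bas Q D → Bas Q v × ℕ}

/-- Even movers. -/
def Me (d : Bas Q v → ℕ) (lab : Bas Q D → Bas Q v × ℕ) (g : Ix Q w v D J ⊕ Ix Q w v D J) : Prop :=
  AlS lab g ∧ kind (· = kz) g ∧ 0 < lvG d lab g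

/-- Odd movers. -/
def Mo (d : Bas Q v → ℕ) (lab : Bas Q D → Bas Q v × ℕ) (g : Ix Q w v D J ⊕ Ix Q w v D J) : Prop :=
  AlS lab g ∧ ofM (fun k p q => k = ke ∨ (∃ ε, k = kt ε) ∧ ¬ thP lab p q) ⊥ ⊥ g ∧ 0 < lvG d lab g

/-- Coordinates. -/
def Ec (d : Bas Q v → ℕ) (lab : Bas Q D → Bas Q v × ℕ) (g : Ix Q w v D J ⊕ Ix Q w v D J) : Prop :=
  AlS lab g ∧ kind (fun k => ∃ ε, k = kx ε) g ∧ lvG d lab g ≤ 0

/-- Equations. -/
def Th (d : Bas Q v → ℕ) (lab : Bas Q D → Bas Q v × ℕ) (g : Ix Q w v D J ⊕ Ix Q w v D J) : Prop :=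
  AlS lab g ∧ kind (fun k => ∃ ε, k = kt ε) g ∧ lvG d lab g ≤ 0

section Gg

variable {k : Kd Q} {p q : Nb Q w v D}

theorem als_gg : AlS (J := J) lab (gg k p q) ↔ shS lab k p q := by rw [AlS, ofM_gg]

theorem lv_gg : lvG (J := J) d lab (gg k p q) = lvk d lab k p q := by rw [lvG, ofM_gg]

theorem cd_gg : cdG (J := J) (gg k p q) = kdeg k := by rw [cdG, ofM_gg]

theorem me_gg : Me (J := J) d lab (gg k p q) ↔ shS lab k p q ∧ k = kz ∧ 0 < lvk d lab k p q := by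
  rw [Me, als_gg, kind_gg, lv_gg]

theorem mo_gg : Mo (J := J) d lab (gg k p q) ↔ shS lab k p q ∧
    (k = ke ∨ (∃ ε, k = kt ε) ∧ ¬ thP lab p q) ∧ 0 < lvk d lab k p q := by
  rw [Mo, als_gg, ofM_gg, lv_gg]

theorem ec_gg : Ec (J := J) d lab (gg k p q) ↔
    shS lab k p q ∧ (∃ ε, k = kx ε) ∧ lvk d lab k p q ≤ 0 := by
  rw [Ec, als_gg, kind_gg, lv_gg]

theorem th_gg' : Th (J := J) d lab (gg k p q) ↔
    shS lab k p q ∧ (∃ ε, k = kt ε) ∧ lvk d lab k p q ≤ 0 := by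
  rw [Th, als_gg, kind_gg, lv_gg]

theorem bk_gg : bigK (J := J) d lab (gg k p q) ↔ shS lab k p q ∧ (k = ka ∨ (0 < lvk d lab k p q ∧
    (k = kc ∨ (∃ ε, k = kx ε) ∨ ((∃ ε, k = kt ε) ∧ thP lab p q)))) := by
  rw [bigK, als_gg, ofM_gg]

theorem pos_gg : posL (J := J) d lab (gg k p q) ↔
    shS lab k p q ∧ ¬ (k = ka ∧ isNe d lab p q) ∧ 0 < lvk d lab k p q := by
  rw [posL, als_gg, isN, ofM_gg, lv_gg]

theorem gr_gg : grC (J := J) d lab (gg k p q) = 0 ↔
    ¬ (shS lab k p q ∧ k = kc ∧ lvk d lab k p q ≤ 0) := by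
  rw [grC, als_gg, kind_gg, lv_gg]
  simp

end Gg

variable {g : Ix Q w v D J ⊕ Ix Q w v D J}

theorem al_ex (hg : AlS lab g) : ∃ k p q, g = gg k p q ∧ shS lab k p q := by
  induction g using g_ind with
  | h k p q => exact ⟨k, p, q, rfl, als_gg.1 hg⟩
  | ht j => exact hg.elim
  | he j => exact hg.elim

theorem Me.prop (h : Me d lab g) : ¬ bigK d lab g ∧ g.isLeft ∧ cdG g = -2 ∧ grC d lab g = 0 := by
  obtain ⟨k, p, q, rfl, -⟩ := al_ex h.1
  obtain ⟨-, rfl, -⟩ := me_gg.1 h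
  rw [bk_gg, gr_gg]
  exact ⟨by simp, rfl, rfl, by simp⟩

theorem Mo.prop (h : Mo d lab g) : ¬ bigK d lab g ∧ g.isRight ∧ cdG g = -1 ∧ grC d lab g = 0 := by
  obtain ⟨k, p, q, rfl, -⟩ := al_ex h.1
  rw [bk_gg, gr_gg]
  obtain ⟨-, rfl | ⟨⟨ε, rfl⟩, h1⟩, -⟩ := mo_gg.1 h
  · exact ⟨by simp, rfl, rfl, by simp⟩
  · exact ⟨by simp [h1], rfl, rfl, by simp⟩

theorem Ec.prop (h : Ec d lab g) : ¬ bigK d lab g ∧ g.isLeft ∧ cdG g = 0 ∧ grC d lab g = 0 := by
  obtain ⟨k, p, q, rfl, -⟩ := al_ex h.1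
  rw [bk_gg, gr_gg]
  obtain ⟨-, ⟨ε, rfl⟩, h1⟩ := ec_gg.1 h
  exact ⟨by simp [h1], rfl, rfl, by simp⟩

theorem Th.prop (h : Th d lab g) : ¬ bigK d lab g ∧ g.isRight ∧ cdG g = -1 ∧ grC d lab g = 0 := by
  obtain ⟨k, p, q, rfl, -⟩ := al_ex h.1
  rw [bk_gg, gr_gg]
  obtain ⟨-, ⟨ε, rfl⟩, h1⟩ := th_gg'.1 h
  exact ⟨by simp [h1], rfl, rfl, by simp⟩

/-- Generators that survive. -/
theorem classify (h : AlS lab g) (hK : ¬ bigK d lab g) (hg : grC d lab g = 0) :
    cdG g ≤ 0 ∧ (cdG g = 0 → Ec d lab g) ∧ (cdG g = -1 → 0 < lvG d lab g → Mo d lab g) := by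
  obtain ⟨k, p, q, rfl, hs⟩ := al_ex h
  revert hK hg
  rw [bk_gg, gr_gg, cd_gg, ec_gg, mo_gg, lv_gg]
  intro hK hg
  rcases k with (ε | _ | _) | ε | _ | _
  · refine ⟨le_rfl, fun _ => ⟨hs, ⟨ε, rfl⟩, ?_⟩, fun h => by simp [kdeg] at h⟩
    by_contra h1
    exact hK ⟨hs, .inr ⟨not_le.1 h1, .inr (.inl ⟨ε, rfl⟩)⟩⟩
  · simp [kdeg]
  · exact absurd ⟨hs, .inl rfl⟩ hK
  · refine ⟨by simp [kdeg], fun h => by simp [kdeg] at h, fun _ h1 =>
      ⟨hs, .inr ⟨⟨ε, rfl⟩, fun h2 => hK ⟨hs, .inr ⟨h1, .inr (.inr ⟨⟨ε, rfl⟩, h2⟩)⟩⟩⟩, h1⟩⟩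
  · exact ⟨by simp [kdeg], fun h => by simp [kdeg] at h, fun _ h1 => ⟨hs, .inl rfl, h1⟩⟩
  · exfalso
    by_cases h1 : lvk d lab kc p q ≤ 0
    · exact hg ⟨hs, rfl, h1⟩
    · exact hK ⟨hs, .inr ⟨not_le.1 h1, .inl rfl⟩⟩

theorem pos_iff (hK : ¬ bigK d lab g) : Me d lab g ∨ Mo d lab g ↔ posL d lab g := by
  by_cases h : AlS lab g
  swap
  · exact ⟨fun h1 => absurd (h1.elim (·.1) (·.1)) h, fun h1 => absurd h1.1 h⟩
  obtain ⟨k, p, q, rfl, hs⟩ := al_ex h
  revert hK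
  rw [bk_gg, me_gg, mo_gg, pos_gg]
  intro hK
  constructor
  · rintro (⟨-, rfl, h1⟩ | ⟨-, rfl | ⟨⟨ε, rfl⟩, -⟩, h1⟩) <;> exact ⟨hs, by simp, h1⟩
  · rintro ⟨-, -, h1⟩
    rcases k with (ε | _ | _) | ε | _ | _
    · exact absurd ⟨hs, .inr ⟨h1, .inr (.inl ⟨ε, rfl⟩)⟩⟩ hK
    · exact .inl ⟨hs, rfl, h1⟩
    · exact absurd ⟨hs, .inl rfl⟩ hK
    · exact .inr ⟨hs, .inr ⟨⟨ε, rfl⟩, fun h2 =>
        hK ⟨hs, .inr ⟨h1, .inr (.inr ⟨⟨ε, rfl⟩, h2⟩)⟩⟩⟩, h1⟩
    · exact .inr ⟨hs, .inl rfl, h1⟩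
    · exact absurd ⟨hs, .inr ⟨h1, .inl rfl⟩⟩ hK

theorem cd_left (h : AlS lab g) (hl : g.isLeft) : cdG g ≤ 0 := by
  obtain ⟨k, p, q, rfl, -⟩ := al_ex h
  rw [cd_gg]
  rcases k with (ε | _ | _) | k
  · exact le_rfl
  · simp [kdeg]
  · exact le_rfl
  · simp [gg] at hl

theorem e0s (h : E0S lab g) (hK : ¬ bigK d lab g) : Ec d lab g := by
  obtain ⟨h, h0⟩ := h
  obtain ⟨k, p, q, rfl, hs⟩ := al_ex h
  rw [kind_gg] at h0
  refine (classify (als_gg.2 hs) hK (gr_gg.2 ?_)).2.1 (cd_gg.trans h0)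
  rintro ⟨-, rfl, -⟩
  simp [kdeg] at h0

variable [Fintype J] [DecidableEq J]

/-- The constraints on the monomials of the leading differential. -/
def Con (d : Bas Q v → ℕ) (lab : Bas Q D → Bas Q v × ℕ) (g : Ix Q w v D J ⊕ Ix Q w v D J)
    (μ : Ix Q w v D J ⊕ Ix Q w v D J → ℕ) : Prop :=
  sup (AlS lab) μ ∧ ws (lvG d lab) μ = lvG d lab g ∧ ws cdG μ = cdG g + 1 ∧
    ws (grC d lab) μ = grC d lab g

variable {μ : Ix Q w v D J ⊕ Ix Q w v D J → ℕ}

omit [DecidableEq J] in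
theorem Con.cl (h : Con d lab g μ) (h0 : grC d lab g = 0) (hK : ¬ has (bigK d lab) μ) (g')
    (hg : μ g' ≠ 0) : cdG g' ≤ 0 ∧ (cdG g' = 0 → Ec d lab g') ∧
      (cdG g' = -1 → 0 < lvG d lab g' → Mo d lab g') :=
  classify (h.1 g' hg) (fun h1 => hK ⟨g', h1, hg⟩) (ws_nat_zero (h.2.2.2.trans h0) g' hg)

omit [DecidableEq J] in
theorem Con.ec (h : Con d lab g μ) (hg : Ec d lab g) : has (bigK d lab) μ := by
  by_contra hK
  have h1 := ws_nonpos fun g' hg' => (h.cl hg.prop.2.2.2 hK g' hg').1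
  rw [h.2.2.1, hg.prop.2.2.1] at h1
  omega

theorem Con.neg (h : Con d lab g μ) (h0 : grC d lab g = 0) (h1 : cdG g = -1) :
    has (bigK d lab) μ ∨ sup (Ec d lab) μ := by
  by_cases hK : has (bigK d lab) μ
  · exact .inl hK
  refine .inr fun g' hg' => (h.cl h0 hK g' hg').2.1 (ws_zero_of
    (fun g' hg' => (h.cl h0 hK g' hg').1) ?_ g' hg')
  rw [h.2.2.1, h1]
  rfl

theorem Con.mo (h : Con d lab g μ) (hg : Mo d lab g) : has (bigK d lab) μ := by
  refine (h.neg hg.prop.2.2.2 hg.prop.2.2.1).resolve_right fun h1 => ?_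
  have h2 := ws_nonpos fun g' hg' => (h1 g' hg').2.2
  rw [h.2.1] at h2
  exact absurd hg.2.2 (not_lt.2 h2)

theorem Con.me (h : Con d lab g μ) (hg : Me d lab g) : has (bigK d lab) μ ∨
    (sup (fun g => Ec d lab g ∨ Mo d lab g) μ ∧ cnt (Mo d lab) μ = 1) := by
  classical
  by_cases hK : has (bigK d lab) μ
  · exact .inl hK
  have hc := h.cl hg.prop.2.2.2 hK
  obtain ⟨g', ν, rfl, h1, h2⟩ := ws_neg_one (fun g' hg' => (hc g' hg').1)
    (by rw [h.2.2.1, hg.prop.2.2.1]; rfl)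
  have h3 : sup (Ec d lab) ν := fun g'' hg'' => (hc g'' (by simp [hg''])).2.1 (h2 g'' hg'')
  have h4 := ws_nonpos fun g'' hg'' => (h3 g'' hg'').2.2
  have h5 := h.2.1
  rw [ws_add, ws_single] at h5
  have h6 : Mo d lab g' := (hc g' (by simp)).2.2 h1 (by have := hg.2.2; omega)
  refine .inr ⟨H63.sup_add.2 ⟨fun g'' hg'' => .inl (h3 g'' hg''), sup_single.2 (.inr h6)⟩, ?_⟩
  have h7 : cnt (Mo d lab) ν = 0 := by
    by_contra h7
    obtain ⟨g'', h8, h9⟩ := cnt_ne_zero.1 h7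
    have := (h3 g'' h9).prop.2.2.1
    rw [h8.prop.2.2.1] at this
    omega
  rw [cnt_add, cnt_single, if_pos h6, h7]

/-! ### Points and odd directions -/

/-- The matrices at a point. -/
noncomputable def Ym (lab : Bas Q D → Bas Q v × ℕ) (y : Ix Q w v D J → ℂ) :
    Kd Q → Matrix (Nb Q w v D) (Nb Q w v D) ℂ := YS lab fun k p q => (gg k p q).elim y 0

/-- A point with odd directions. -/
noncomputable def rho (y : Ix Q w v D J → ℂ) (s : Ix Q w v D J ⊕ Ix Q w v D J → ℂ) :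
    Ix Q w v D J ⊕ Ix Q w v D J → DualNumber ℂ :=
  Sum.elim (fun e => TrivSqZeroExt.inl (y e)) fun o => TrivSqZeroExt.inr (s (.inr o))

omit [Fintype J] [DecidableEq J] in
theorem rho_comm (y : Ix Q w v D J → ℂ) (s) (g h : Ix Q w v D J ⊕ Ix Q w v D J) :
    rho y s g * rho y s h = sg (g.isRight && h.isRight) • (rho y s h * rho y s g) := by
  rcases g with e | o <;> rcases h with e' | o'
  · rw [mul_comm]
    simp [sg_false]
  · rw [mul_comm]
    simp [sg_false]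
  · rw [mul_comm]
    simp [sg_false]
  · simp [rho]

omit [Fintype J] [DecidableEq J] in
theorem rho_aeval (y : Ix Q w v D J → ℂ) (s) (f : MvPolynomial (Ix Q w v D J) ℂ) :
    aeval (fun e => rho y s (.inl e)) f = TrivSqZeroExt.inl (eval y f) := by
  have h : aeval (fun e => rho y s (.inl e)) =
      (TrivSqZeroExt.inlAlgHom ℂ ℂ ℂ).comp (aeval y) := algHom_ext fun e => by simp [rho]
  rw [h]
  rfl

theorem snd_lr {N : Type} [Fintype N] (A B : Matrix N N ℂ) (p q : N) :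
    ((A.map TrivSqZeroExt.inl * B.map TrivSqZeroExt.inr : Matrix N N (DualNumber ℂ)) p q).snd =
      (A * B) p q := by
  simp only [Matrix.mul_apply, TrivSqZeroExt.snd_sum]
  exact sum_congr rfl fun x _ => by simp [mul_comm]

theorem snd_rl {N : Type} [Fintype N] (A B : Matrix N N ℂ) (p q : N) :
    ((A.map TrivSqZeroExt.inr * B.map TrivSqZeroExt.inl : Matrix N N (DualNumber ℂ)) p q).snd =
      (A * B) p q := by
  simp only [Matrix.mul_apply, TrivSqZeroExt.snd_sum]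
  exact sum_congr rfl fun x _ => by simp [mul_comm]

section Pt

variable {y : Ix Q w v D J → ℂ} (hy : ∀ e, ¬ Ec d lab (.inl e : Ix Q w v D J ⊕ _) → y e = 0)
include hy

omit [Fintype J] [DecidableEq J] in
theorem Ym_ka : Ym lab y ka = al0 lab := by
  rw [Ym, YS_ka0 fun p q => hy _ fun h => by simpa using (ec_gg (k := ka).1 h).2.1]
  rfl

omit [Fintype J] [DecidableEq J] in
theorem Ym_kx (ε : Arr Q) (p q : Nb Q w v D)
    (h : ¬ (shS lab (kx ε) p q ∧ lvk d lab (kx ε) p q ≤ 0)) : Ym lab y (kx ε) p q = 0 := by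
  rw [Ym, YS_oth _ (by simp) (by simp)]
  split_ifs with hs
  · exact hy _ fun h1 => h ⟨hs, (ec_gg (k := kx ε).1 h1).2.2⟩
  · rfl

omit [Fintype J] [DecidableEq J] in
theorem Ym_det (hl : IsLab d lab) (P : Bas Q v → Pth Q w) :
    eval y (resS lab (FP P)) = (Fmat P (Ym lab y)).det := by
  let h : MvPolynomial (Ix Q w v D J) ℂ →+* ℂ := (eval y).comp (resS lab).toRingHom
  change h (Fmat P Ypol).det = _
  rw [RingHom.map_det, RingHom.mapMatrix_apply, Fmat_map]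
  congr 1
  refine Fmat_congr P ?_ fun ε => ?_
  · rw [Ym_ka hy]
    ext p q
    rw [Matrix.map_apply, Ypol]
    by_cases hs : shape rad ka p q
    · rw [msk_pos _ hs]
      change eval y (resS lab (X (.inl (.inr true, p, q)))) = _
      rw [resS, aeval_X]
      dsimp only
      split_ifs with ht
      · rw [eval_X, ht q]
        exact hy _ fun h => by simpa using (ec_gg (k := ka).1 h).2.1
      · exact eval_C _
    · rw [msk_neg _ hs, map_zero]
      by_contra h1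
      exact hs (al0_shape hl (Ne.symm h1))
  · ext p q
    rw [Matrix.map_apply, Ypol, Ym, YS_oth _ (by simp) (by simp)]
    by_cases hs : shape rad (kx ε) p q
    · rw [msk_pos _ hs, if_pos ⟨hs, fun h => by simp at h⟩]
      change eval y (resS lab (X (.inl (.inl ε, p, q)))) = _
      rw [resS, aeval_X]
      exact eval_X _
    · rw [msk_neg _ hs, map_zero, if_neg fun h => hs h.1]

omit [Fintype J] [DecidableEq J] in
theorem rho_kill {s : Ix Q w v D J ⊕ Ix Q w v D J → ℂ} (hs : ∀ g, ¬ Mo d lab g → s g = 0)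
    (h : bigK d lab g ∨ grC d lab g ≠ 0) : rho y s g = 0 := by
  rcases g with e | o
  · change TrivSqZeroExt.inl (y e) = 0
    rw [hy e fun h1 => h.elim h1.prop.1 fun h2 => h2 h1.prop.2.2.2, TrivSqZeroExt.inl_zero]
  · change TrivSqZeroExt.inr (s (.inr o)) = 0
    rw [hs _ fun h1 => h.elim h1.prop.1 fun h2 => h2 h1.prop.2.2.2, TrivSqZeroExt.inr_zero]

omit [Fintype J] [DecidableEq J] in
theorem Y_rho {s : Ix Q w v D J ⊕ Ix Q w v D J → ℂ} (hs : ∀ g, ¬ Mo d lab g → s g = 0) :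
    (YS lab fun k p q => rho y s (gg k p q)) ka = (al0 lab).map TrivSqZeroExt.inl ∧
    (YS lab fun k p q => rho y s (gg k p q)) kc = 0 ∧
    (∀ ε, (YS lab fun k p q => rho y s (gg k p q)) (kx ε) =
      (Ym lab y (kx ε)).map TrivSqZeroExt.inl) ∧
    ∀ τ, τ ≠ .inr true → (YS lab fun k p q => rho y s (gg k p q)) (.inr τ) =
      (Matrix.of fun p q => s (gg (.inr τ) p q)).map TrivSqZeroExt.inr := by
  refine ⟨YS_ka0 fun p q => ?_, YS_kc0 fun p q => ?_, fun ε => ?_, fun τ hτ => ?_⟩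
  · change TrivSqZeroExt.inl (y _) = 0
    rw [hy _ fun h => by simpa using (ec_gg (k := ka).1 h).2.1, TrivSqZeroExt.inl_zero]
  · change TrivSqZeroExt.inr (s (gg kc p q)) = 0
    rw [hs _ fun h => by simpa using (mo_gg.1 h).2.1, TrivSqZeroExt.inr_zero]
  · ext1 p q
    rw [Matrix.map_apply, Ym, YS_oth _ (by simp) (by simp), YS_oth _ (by simp) (by simp)]
    split_ifs
    exacts [rfl, (TrivSqZeroExt.inl_zero _).symm]
  · ext1 p q
    rw [Matrix.map_apply, YS_oth _ (by simp) (by simpa using hτ), Matrix.of_apply]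
    split_ifs with h1
    · rfl
    · rw [hs _ fun h => h1 (mo_gg.1 h).1, TrivSqZeroExt.inr_zero]

variable {σ : Bas Q v ≃ Bas Q v} {f : J → MvPolynomial (Ix Q w v D J) ℂ} {φ : J → G} {j₀ : J}
  {δ₀ : Ix Q w v D J ⊕ Ix Q w v D J → OpQ Q w v D J}

/-- The leading differential has the same value as the differential. -/
theorem lift_lead (hD : DSqStmt) (hG : Gr0 σ d lab f φ j₀ δ₀)
    (hw : ∀ g, dS (w := w) (J := J) lab g ∈ words fun _ => True)
    {s : Ix Q w v D J ⊕ Ix Q w v D J → ℂ} (hs : ∀ g, ¬ Mo d lab g → s g = 0) {k : Kd Q}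
    {p q : Nb Q w v D} (h : shS lab k p q) (h0 : grC (J := J) d lab (gg k p q) = 0)
    {m : OpQ Q w v D J} (hm : δ₀ (gg k p q) - m ∈ words (has (bigK d lab))) :
    lift (rho y s) (m one) = Phi Q (YS lab fun k p q => rho y s (gg k p q)) k p q := by
  have h1 := lift_kill (rho_comm y s) (fun g hg => rho_kill hy hs (.inl hg)) hm
  have h2 := lift_kill (rho_comm y s) (A := fun g => grC d lab g ≠ 0)
    (fun g hg => rho_kill hy hs (.inr hg)) (words_le (fun μ hμ => by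
      by_contra h3
      have h4 : ws (grC d lab) μ = 0 := sum_eq_zero fun g _ => by
        by_cases hg : μ g = 0
        · rw [hg, zero_smul]
        · rw [not_not.1 fun h5 => h3 ⟨g, h5, hg⟩, smul_zero]
      have := hμ.2
      omega) (hG.lead _ _ (hw (gg k p q))).2)
  rw [LinearMap.sub_apply, map_sub, sub_eq_zero] at h1 h2
  rw [← h1, ← h2, lift_dS hD (rho_comm y s) h]

end Pt

theorem negN : DSqStmt → N4Stmt → SlFStmt → SlWStmt → NegPtStmt → NegNStmt := by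
  intro hD hN hF hW hP Q w v D J _ _ σ d lab m P φ₀ f φ j₀ δ₀ hC hG hK k hk γ
  classical
  obtain ⟨-, -, hcd, -, -⟩ := hF Q w v D J σ d lab m hC.isLab hC.vert hC.const
  obtain ⟨hlv, -⟩ := hW Q w v D J σ d lab hC.isLab hC.vert
  have hw : ∀ g, dS (w := w) (J := J) lab g ∈ words fun _ => True := fun g =>
    words_le (fun _ _ => trivial) (hcd g)
  have hcon : ∀ g, AlS lab g → δ₀ g ∈ words (Con d lab g) := fun g hg =>
    words_le (fun μ h => ⟨h.1.1, by
      have h1 := congrArg (co 0) h.1.2.1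
      rw [map_ws, hlv φ g hg] at h1
      rw [← h1]
      refine sum_congr rfl fun g' _ => ?_
      by_cases h2 : μ g' = 0
      · rw [h2, zero_smul, zero_smul]
      · exact congrArg _ (hlv φ g' (h.1.1 g' h2)).symm, h.2⟩) (words_and (hG.good.dw g) (hG.lead g _ (hcd g)).1)
  have hr : ∀ g, ∃ r, (pol r : Sp (Ix Q w v D J) (Ix Q w v D J)) ∈ mono (sup (Ec d lab)) ∧
      (Th d lab g → δ₀ g - mul r ∈ words (has (bigK d lab))) := fun g => by
    by_cases hg : Th d lab g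
    · obtain ⟨r, h1, h2⟩ := nf0 (fun g h => Ec.prop h |>.2.1) (words_le
        (fun μ h => Con.neg h hg.prop.2.2.2 hg.prop.2.2.1) (hcon g hg.1))
      exact ⟨r, h1, fun _ => h2⟩
    · exact ⟨0, pol_mem.2 fun m h => absurd (coeff_zero m) h, fun h => absurd h hg⟩
  choose r hr1 hr2 using hr
  have ha : ∀ g, ∃ a : _ → MvPolynomial (Ix Q w v D J) ℂ,
      (∀ g', (pol (a g') : Sp (Ix Q w v D J) (Ix Q w v D J)) ∈ mono (sup (Ec d lab)) ∧
        (a g' ≠ 0 → Me d lab g ∧ Mo d lab g')) ∧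
      (Me d lab g → δ₀ g - ∑ g', mul (a g') * gn g' ∈ words (has (bigK d lab))) := fun g => by
    by_cases hg : Me d lab g
    · obtain ⟨a, h1, h2⟩ := nf1 (fun g h => Ec.prop h |>.2.1) (words_le
        (fun μ h => Con.me h hg) (hcon g hg.1))
      exact ⟨a, fun g' => ⟨(h1 g').1, fun h => ⟨hg, (h1 g').2 h⟩⟩, fun _ => h2⟩
    · exact ⟨0, fun g' => ⟨pol_mem.2 fun m h => absurd (coeff_zero m) h, fun h => absurd rfl h⟩,
        fun h => absurd h hg⟩
  choose a ha1 ha2 using ha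
  have key := hN _ _ J G (AlS lab) (wt (xs σ d lab) φ) δ₀ 0 f hG.good j₀ (bigK d lab)
    (fun _ h => h.1) hK (zero_mem _) hG.closed (Me d lab) (Mo d lab) (Ec d lab) (Th d lab) r a cdG
    (fun g h => ⟨h.1, h.prop.1, h.prop.2.1, by rw [h.prop.2.2.1]; decide,
      words_le (fun _ => .inl) (ha2 g h)⟩)
    (fun g h => ⟨h.1, h.prop.1, h.prop.2.1, by rw [h.prop.2.2.1]; decide,
      words_le (fun _ h1 => .inl (Con.mo h1 h)) (hcon g h.1)⟩)
    (fun g h => ⟨h.1, h.prop.1, h.prop.2.1, fun h1 => absurd h1.2.2 (not_lt.2 h.2.2),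
      words_le (fun _ h1 => Con.ec h1 h) (hcon g h.1)⟩)
    (fun g h => ⟨h.1, h.prop.1, h.prop.2.1, fun h1 => absurd h1.2.2 (not_lt.2 h.2.2), hr2 g h⟩)
    hr1 ha1
    (mono_le (fun μ h => by
      by_cases h1 : has (bigK d lab) μ
      · exact .inl h1
      · exact .inr fun g hg => e0s (h.1 g hg) fun h2 => h1 ⟨g, h2, hg⟩) (hC.hom j₀))
    (fun g => words_le (fun _ h => h.1) (hG.lead g _ (hcd g)).1) rfl
    (fun g h => h.prop.2.2.1) (fun g h h' => cd_left h h') ?_ k hk γ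
  · have e : (fun μ => has (bigK d lab) μ ∨ k ≤ cnt (posL (w := w) (J := J) d lab) μ) = fun μ =>
        has (bigK d lab) μ ∨ k ≤ cnt (fun g => Me d lab g ∨ Mo d lab g) μ := by
      funext μ
      by_cases h1 : has (bigK d lab) μ
      · simp only [h1, true_or]
      have h2 : cnt (posL d lab) μ = cnt (fun g => Me d lab g ∨ Mo d lab g) μ :=
        sum_congr rfl fun g _ => by
          by_cases hg : μ g = 0
          · rw [hg, ite_self, ite_self]
          · simp only [pos_iff fun h => h1 ⟨g, h, hg⟩]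
      rw [h2]
    rw [e]
    exact key
  intro y hy hθ hf ξ hξ
  let ξM : Matrix (Nb Q w v D) (Nb Q w v D) ℂ := fun p q =>
    if Me (J := J) d lab (gg kz p q) then ξ (gg kz p q) else 0
  have main : ∀ (u : Matrix (Nb Q w v D) (Nb Q w v D) ℂ)
      (t : Arr Q → Matrix (Nb Q w v D) (Nb Q w v D) ℂ),
      (∀ p q, ¬ (shS lab ke p q ∧ 0 < lvk d lab ke p q) → u p q = 0) →
      (∀ ε p q, ¬ (shS lab (kt ε) p q ∧ 0 < lvk d lab (kt ε) p q ∧ ¬ thP lab p q) →
        t ε p q = 0) →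
      ∑ p, ∑ q, ξM p q * (cm0 lab u - ∑ o, (Ym lab y (kx (o, true)) * t (o, false) +
        t (o, true) * Ym lab y (kx (o, false)) - Ym lab y (kx (o, false)) * t (o, true) -
        t (o, false) * Ym lab y (kx (o, true)))) p q = 0 := by
    intro u t hu ht
    let s : Ix Q w v D J ⊕ Ix Q w v D J → ℂ := ofM (fun k => match k with
      | .inr (.inl ε) => t ε
      | .inr (.inr false) => u
      | _ => 0) 0 0
    have hs : ∀ g, ¬ Mo d lab g → s g = 0 := fun g => by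
      induction g using g_ind with
      | h k p q =>
        rw [mo_gg]
        intro h
        rcases k with (ε | _ | _) | ε | _ | _
        · rfl
        · rfl
        · rfl
        · exact ht ε p q fun h1 => h ⟨h1.1, .inr ⟨⟨ε, rfl⟩, h1.2.2⟩, h1.2.1⟩
        · exact hu p q fun h1 => h ⟨h1.1, .inl rfl, h1.2⟩
        · rfl
      | ht j => exact fun _ => rfl
      | he j => exact fun _ => rfl
    obtain ⟨e1, e2, e3, e4⟩ := Y_rho hy hs
    have e5 : (YS lab fun k p q => rho y s (gg k p q)) ke = u.map TrivSqZeroExt.inr :=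
      e4 _ (by simp)
    have e6 : ∀ ε, (YS lab fun k p q => rho y s (gg k p q)) (kt ε) =
        (t ε).map TrivSqZeroExt.inr := fun ε => e4 _ (by simp)
    have h1 : ∀ p q, ξM p q * (cm0 lab u - ∑ o, (Ym lab y (kx (o, true)) * t (o, false) +
        t (o, true) * Ym lab y (kx (o, false)) - Ym lab y (kx (o, false)) * t (o, true) -
        t (o, false) * Ym lab y (kx (o, true)))) p q =
        ∑ g', ξ (gg kz p q) * eval y (a (gg kz p q) g') * (rho y s g').snd := by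
      intro p q
      by_cases hm : Me (J := J) d lab (gg kz p q)
      · have h2 := congrArg TrivSqZeroExt.snd
          (lift_lead hy hD hG hw hs (me_gg.1 hm).1 hm.prop.2.2.2 (ha2 _ hm))
        simp only [Phi] at h2
        rw [e1, e2, e5] at h2
        simp only [e3, e6, mul_zero, zero_mul, add_zero, sub_zero, Matrix.sub_apply,
          Matrix.add_apply, Matrix.sum_apply, TrivSqZeroExt.snd_sub, TrivSqZeroExt.snd_add,
          TrivSqZeroExt.snd_sum, snd_lr, snd_rl, LinearMap.sum_apply, map_sum,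
          Module.End.mul_apply, lift_mul (rho_comm y s), lift_gn (rho_comm y s), lift_one,
          mul_one, rho_aeval, Matrix.zero_apply, TrivSqZeroExt.snd_zero] at h2
        simp only [ξM, if_pos hm, cm0, Matrix.sub_apply, Matrix.add_apply, Matrix.sum_apply]
        rw [← h2, mul_sum]
        refine sum_congr rfl fun g' _ => ?_
        simp [mul_assoc]
      · simp only [ξM, if_neg hm, zero_mul]
        refine (sum_eq_zero fun g' _ => ?_).symm
        rw [not_not.1 fun h => hm ((ha1 _ g').2 h).1, map_zero, mul_zero, zero_mul]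
    simp only [h1]
    rw [← Fintype.sum_prod_type', sum_comm]
    refine sum_eq_zero fun g' _ => ?_
    rw [← sum_mul, Fintype.sum_of_injective (fun x : Nb Q w v D × Nb Q w v D => gg kz x.1 x.2)
      (fun x x' h => by simpa [gg, Prod.ext_iff] using h) _ (fun g => ξ g * eval y (a g g'))
      (fun g hg => ?_) (fun _ => rfl), hξ, zero_mul]
    by_cases h : a g g' = 0
    · rw [h, map_zero, mul_zero]
    · refine absurd ?_ hg
      have hm := ((ha1 g g').2 h).1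
      obtain ⟨k, p, q, rfl, -⟩ := al_ex hm.1
      obtain ⟨-, rfl, -⟩ := me_gg.1 hm
      exact ⟨(p, q), rfl⟩
  have hz : ξM = 0 := by
    refine hP Q w v D d lab hC.isLab P (Ym lab y) (Ym_ka hy) (Ym_kx hy) (fun ε p q h1 h2 => ?_) ?_
      ξM (fun p q h => if_neg fun h1 => h ⟨(me_gg.1 h1).1, (me_gg.1 h1).2.2⟩)
      (fun u hu => ?_) fun t ht => ?_
    · have hm : Th (J := J) d lab (gg (kt ε) p q) := th_gg'.2 ⟨h1, ⟨ε, rfl⟩, h2⟩
      have hs : ∀ g, ¬ Mo d lab g → (0 : Ix Q w v D J ⊕ Ix Q w v D J → ℂ) g = 0 := fun _ _ => rfl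
      obtain ⟨e1, e2, e3, -⟩ := Y_rho hy hs
      have h3 := congrArg TrivSqZeroExt.fst
        (lift_lead hy hD hG hw hs h1 hm.prop.2.2.2 (hr2 _ hm))
      simp only [Phi] at h3
      rw [e1, e2, e3, lift_mul (rho_comm y 0), lift_one, mul_one, rho_aeval, hθ _ hm] at h3
      simpa [cm0, Matrix.mul_apply, TrivSqZeroExt.fst_sum] using h3.symm
    · rw [← Ym_det hy hC.isLab, ← hC.fj]
      exact hf
    · simpa using main u 0 hu fun _ _ _ _ => rfl
    · have h1 := main 0 t (fun _ _ _ => rfl) ht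
      simp only [cm0, zero_mul, mul_zero, sub_self, zero_sub, Matrix.neg_apply, mul_neg,
        sum_neg_distrib, neg_eq_zero] at h1
      exact h1
  intro g h
  obtain ⟨k, p, q, rfl, -⟩ := al_ex h.1
  obtain ⟨-, rfl, -⟩ := me_gg.1 h
  have h1 := congrFun (congrFun hz p) q
  simp only [ξM, if_pos h] at h1
  exact h1

end Pool.Agent.MP_8be872_ag.H34
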